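import Mathlib

/-!
Chebyshev's upper bound `ψ(m) ≤ c m + C` for every `c > (8/5) log 2 = 1.109…`.
-/

set_option autoImplicit false

namespace Pool.Agent.Lib.Common.LogApprox

open Finset Real Filter
open ArithmeticFunction hiding log id

theorem log_factorial_eq (N K : ℕ) (h : N ≤ K) :
    log (N.factorial : ℝ) = ∑ d ∈ Ioc 0 K, vonMangoldt d * ((N / d : ℕ) : ℝ) := by
  induction N with
  | zero => simp
  | succ N ih =>
    rw [Nat.factorial_succ, Nat.cast_mul, log_mul (by positivity) (by positivity),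
      ih (by omega), ← vonMangoldt_sum]
    simp only [Nat.succ_div, Nat.cast_add, mul_add, sum_add_distrib]
    rw [add_comm]
    congr 1
    have : (N + 1).divisors = (Ioc 0 K).filter fun d => d ∣ N + 1 := by
      ext d
      simp only [Nat.mem_divisors, mem_filter, mem_Ioc]
      constructor
      · rintro ⟨h1, -⟩
        exact ⟨⟨Nat.pos_of_dvd_of_pos h1 (by omega), (Nat.le_of_dvd (by omega) h1).trans h⟩, h1⟩
      · rintro ⟨-, h1⟩
        exact ⟨h1, by omega⟩
    rw [this, sum_filter]
    refine sum_congr rfl fun d _ => ?_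
    split_ifs <;> simp

theorem log_factorial_le (n : ℕ) (hn : 1 ≤ n) :
    log (n.factorial : ℝ) ≤ n * log n - n + 1 + log n := by
  induction n, hn using Nat.le_induction with
  | base => simp
  | succ n hn ih =>
    have hn' : (1 : ℝ) ≤ n := by exact_mod_cast hn
    rw [Nat.factorial_succ, Nat.cast_mul, log_mul (by positivity) (by positivity)]
    push_cast
    have h1 := Real.log_le_sub_one_of_pos (show (0 : ℝ) < n / (n + 1) by positivity)
    rw [log_div (by positivity) (by positivity)] at h1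
    have h2 : ((n : ℝ) + 1) * (log n - log (n + 1)) ≤ (n + 1) * (n / (n + 1) - 1) := by gcongr
    have h3 : ((n : ℝ) + 1) * (n / (n + 1) - 1) = -1 := by field_simp; ring
    nlinarith

theorem le_log_factorial (n : ℕ) (hn : 1 ≤ n) : n * log n - n ≤ log (n.factorial : ℝ) := by
  have hn' : (1 : ℝ) ≤ n := by exact_mod_cast hn
  have h1 := Real.pow_div_factorial_le_exp (n : ℝ) (by positivity) n
  have h2 := log_le_log (by positivity) h1
  rw [log_div (by positivity) (by positivity), log_pow, log_exp] at h2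
  linarith

theorem floor_comb (k d : ℕ) (hd : 0 < d) :
    15 * k / d + 10 * k / d + 6 * k / d + (if 5 * k < d ∧ d ≤ 30 * k then 1 else 0) ≤
      30 * k / d + k / d := by
  have e : ∀ j : ℕ, 0 < j → ∀ m, 30 = j * m → m * k / d = 30 * k / d / j := by
    intro j hj m h
    rw [Nat.div_div_eq_div_mul, mul_comm d j, h, mul_assoc, Nat.mul_div_mul_left _ _ hj]
  have e1 := e 2 (by norm_num) 15 rfl
  have e2 := e 3 (by norm_num) 10 rfl
  have e3 := e 5 (by norm_num) 6 rfl
  have e4 := e 30 (by norm_num) 1 rfl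
  rw [one_mul] at e4
  rw [e1, e2, e3, e4]
  split_ifs with h
  · have h1 : 1 ≤ 30 * k / d := (Nat.le_div_iff_mul_le hd).mpr (by omega)
    have h2 : 30 * k / d < 6 := (Nat.div_lt_iff_lt_mul hd).mpr (by omega)
    omega
  · omega

theorem psi_step (k : ℕ) (hk : 1 ≤ k) :
    Chebyshev.psi (30 * k : ℕ) ≤
      Chebyshev.psi (5 * k : ℕ) + 40 * log 2 * k + 2 + 2 * log (30 * k) := by
  have hk' : (1 : ℝ) ≤ k := by exact_mod_cast hk
  have h1 : Chebyshev.psi (30 * k : ℕ) - Chebyshev.psi (5 * k : ℕ) =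
      ∑ d ∈ Ioc 0 (30 * k), vonMangoldt d *
        ((if 5 * k < d ∧ d ≤ 30 * k then 1 else 0 : ℕ) : ℝ) := by
    simp only [Chebyshev.psi, Nat.floor_natCast]
    rw [← sum_Ioc_consecutive _ (Nat.zero_le (5 * k)) (by omega : 5 * k ≤ 30 * k),
      ← sum_Ioc_consecutive _ (Nat.zero_le (5 * k)) (by omega : 5 * k ≤ 30 * k),
      add_sub_cancel_left, sum_eq_zero (s := Ioc 0 (5 * k)), zero_add]
    · refine sum_congr rfl fun d hd => ?_
      rw [if_pos (mem_Ioc.mp hd)]; simp
    · intro d hd
      rw [if_neg (by have := mem_Ioc.mp hd; omega)]; simp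
  have h2 : log ((15 * k).factorial : ℝ) + log ((10 * k).factorial : ℝ) +
      log ((6 * k).factorial : ℝ) + (Chebyshev.psi (30 * k : ℕ) - Chebyshev.psi (5 * k : ℕ)) ≤
      log ((30 * k).factorial : ℝ) + log (k.factorial : ℝ) := by
    rw [h1, log_factorial_eq (15 * k) (30 * k) (by omega),
      log_factorial_eq (10 * k) (30 * k) (by omega), log_factorial_eq (6 * k) (30 * k) (by omega),
      log_factorial_eq (30 * k) (30 * k) le_rfl, log_factorial_eq k (30 * k) (by omega)]
    simp only [← sum_add_distrib, ← mul_add]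
    refine sum_le_sum fun d hd => mul_le_mul_of_nonneg_left ?_ vonMangoldt_nonneg
    exact_mod_cast floor_comb k d (mem_Ioc.mp hd).1
  have h3 := log_factorial_le (30 * k) (by omega)
  have h4 := log_factorial_le k hk
  have h5 := le_log_factorial (15 * k) (by omega)
  have h6 := le_log_factorial (10 * k) (by omega)
  have h7 := le_log_factorial (6 * k) (by omega)
  push_cast at h3 h5 h6 h7
  have h8 : log (k : ℝ) ≤ log (30 * k) := log_le_log (by linarith) (by linarith)
  have h9 : 30 * log 30 - 15 * log 15 - 10 * log 10 - 6 * log 6 ≤ 40 * log (2 : ℝ) := by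
    have e1 : log ((30 : ℝ) ^ 30) ≤ log (2 ^ 40 * 15 ^ 15 * 10 ^ 10 * 6 ^ 6) :=
      log_le_log (by positivity) (by norm_num)
    rw [log_mul (by positivity) (by positivity), log_mul (by positivity) (by positivity),
      log_mul (by positivity) (by positivity)] at e1
    simp only [log_pow] at e1
    push_cast at e1
    linarith
  have l30 : log (30 * k : ℝ) = log 30 + log k := log_mul (by norm_num) (by positivity)
  have l15 : log (15 * k : ℝ) = log 15 + log k := log_mul (by norm_num) (by positivity)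
  have l10 : log (10 * k : ℝ) = log 10 + log k := log_mul (by norm_num) (by positivity)
  have l6 : log (6 * k : ℝ) = log 6 + log k := log_mul (by norm_num) (by positivity)
  have h10 := mul_le_mul_of_nonneg_right h9 (show (0 : ℝ) ≤ k by positivity)
  rw [l15] at h5; rw [l10] at h6; rw [l6] at h7
  nth_rewrite 1 [l30] at h3
  nlinarith

theorem psi_le_cheb (c : ℝ) (hc : 8 / 5 * log 2 < c) :
    ∃ C : ℝ, ∀ m : ℕ, Chebyshev.psi m ≤ c * m + C := by
  have hl2 : 0 < log (2 : ℝ) := log_pos (by norm_num)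
  have hc0 : 0 < c := by linarith
  set δ := 25 * c - 40 * log 2 with hδ
  have hδ0 : 0 < δ := by linarith
  have hev : ∀ᶠ t : ℝ in atTop, 30 * c + 2 + 2 * log (30 * t) ≤ δ * t := by
    have h1 := (Real.isLittleO_log_id_atTop.bound (show (0 : ℝ) < δ / 4 by positivity))
    filter_upwards [h1, eventually_ge_atTop (2 * (30 * c + 2 + 2 * log 30) / δ),
      eventually_gt_atTop 0] with t h2 h3 ht
    rw [id, Real.norm_of_nonneg ht.le] at h2
    have h4 : log t ≤ δ / 4 * t := (le_abs_self _).trans h2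
    rw [log_mul (by norm_num) ht.ne']
    rw [div_le_iff₀ hδ0] at h3
    nlinarith
  obtain ⟨k0, hk0⟩ := eventually_atTop.mp (tendsto_natCast_atTop_atTop.eventually hev)
  refine ⟨Chebyshev.psi (30 * (k0 + 1) : ℕ), fun m => ?_⟩
  induction m using Nat.strong_induction_on with
  | _ m ih =>
    by_cases hm : m ≤ 30 * (k0 + 1)
    · have h1 : Chebyshev.psi m ≤ Chebyshev.psi (30 * (k0 + 1) : ℕ) :=
        Chebyshev.psi_mono (by exact_mod_cast hm)
      have h2 : 0 ≤ c * m := by positivity
      linarith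
    · obtain ⟨k, hk1, hk2⟩ : ∃ k, m ≤ 30 * k ∧ 30 * k ≤ m + 30 := ⟨m / 30 + 1, by omega, by omega⟩
      have h1 : Chebyshev.psi m ≤ Chebyshev.psi (30 * k : ℕ) :=
        Chebyshev.psi_mono (by exact_mod_cast hk1)
      have h2 := psi_step k (by omega)
      have h3 := ih (5 * k) (by omega)
      have h4 := hk0 k (by omega)
      have h5 : c * (30 * k) ≤ c * (m + 30) := by
        gcongr; exact_mod_cast hk2
      push_cast at h3 ⊢
      push_cast at h1 h2
      nlinarith

/-- `lcm(1, …, m) ≤ C λ^m` whenever `λ^5 > 2^8`. -/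
theorem lcmUpto_le (l : ℝ) (hl0 : 0 < l) (hl : 2 ^ 8 < l ^ 5) :
    ∃ C : ℝ, 0 < C ∧ ∀ m : ℕ, (Nat.lcmUpto m : ℝ) ≤ C * l ^ m := by
  obtain ⟨C, hC⟩ := psi_le_cheb (log l) (by
    have := log_lt_log (by positivity) hl
    rw [log_pow, log_pow] at this
    push_cast at this
    linarith)
  refine ⟨exp C, exp_pos _, fun m => ?_⟩
  have h1 := hC m
  rw [Chebyshev.psi_eq_log_lcmUpto] at h1
  have h2 : (0 : ℝ) < Nat.lcmUpto m := by exact_mod_cast Nat.lcmUpto_pos m
  rw [← exp_log h2, ← exp_log hl0, ← exp_nat_mul, ← exp_add]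
  exact exp_le_exp.mpr (by linarith)

end Pool.Agent.Lib.Common.LogApprox
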