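import Mathlib

/-!
Integer polynomials: contents after scaling, majorants, and the integrals
`∫ G(x) / x^(N+1) dx` between positive integers.
-/

set_option autoImplicit false

namespace Pool.Agent.Lib.Common.LogApprox

open Finset Real Polynomial

/-- `g` divides all the coefficients of `P(γ y)`. -/
def Cont (γ g : ℤ) (P : ℤ[X]) : Prop := C g ∣ P.comp (C γ * X)

theorem Cont.mul {γ g g' : ℤ} {P P' : ℤ[X]} (h : Cont γ g P) (h' : Cont γ g' P') :
    Cont γ (g * g') (P * P') := by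
  unfold Cont at *
  rw [mul_comp, C_mul]
  exact mul_dvd_mul h h'

theorem Cont.pow {γ g : ℤ} {P : ℤ[X]} (h : Cont γ g P) (n : ℕ) : Cont γ (g ^ n) (P ^ n) := by
  unfold Cont at *
  rw [pow_comp, C_pow]
  exact pow_dvd_pow_of_dvd h n

theorem Cont.one (γ : ℤ) (P : ℤ[X]) : Cont γ 1 P := by
  unfold Cont
  rw [C_1]
  exact one_dvd _

theorem Cont.of_dvd {γ g g' : ℤ} {P : ℤ[X]} (h : Cont γ g P) (hg : g' ∣ g) : Cont γ g' P :=
  (map_dvd C hg).trans h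

theorem Cont.linear (γ g q r : ℤ) (h1 : g ∣ q * γ) (h2 : g ∣ r) : Cont γ g (C q * X - C r) := by
  unfold Cont
  rw [sub_comp, mul_comp, C_comp, X_comp, C_comp, ← mul_assoc, ← C_mul]
  exact dvd_sub ((map_dvd C h1).mul_right _) (map_dvd C h2)

theorem Cont.coeff {γ g : ℤ} {P : ℤ[X]} (h : Cont γ g P) (j : ℕ) : g ∣ P.coeff j * γ ^ j := by
  rw [← comp_C_mul_X_coeff]
  exact (C_dvd_iff_dvd_coeff _ _).mp h j

/-- `∑ |c_j| ρ^j ≤ a`. -/
def Maj (ρ : ℝ) (G : ℤ[X]) (a : ℝ) : Prop :=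
  ∃ P : ℝ[X], (∀ j, |(G.coeff j : ℝ)| ≤ P.coeff j) ∧ P.eval ρ ≤ a

theorem coeff_le_eval {ρ : ℝ} (hρ : 0 ≤ ρ) {P : ℝ[X]} (h : ∀ j, 0 ≤ P.coeff j) (j : ℕ) :
    P.coeff j * ρ ^ j ≤ P.eval ρ := by
  rw [eval_eq_sum, Polynomial.sum]
  by_cases hj : j ∈ P.support
  · exact single_le_sum (f := fun j => P.coeff j * ρ ^ j)
      (fun i _ => mul_nonneg (h i) (pow_nonneg hρ i)) hj
  · rw [notMem_support_iff.mp hj, zero_mul]
    exact sum_nonneg fun i _ => mul_nonneg (h i) (pow_nonneg hρ i)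

theorem Maj.coeff {ρ a : ℝ} (hρ : 0 ≤ ρ) {G : ℤ[X]} (h : Maj ρ G a) (j : ℕ) :
    |(G.coeff j : ℝ)| * ρ ^ j ≤ a := by
  obtain ⟨P, h1, h2⟩ := h
  exact (mul_le_mul_of_nonneg_right (h1 j) (pow_nonneg hρ j)).trans
    ((coeff_le_eval hρ (fun j => (abs_nonneg _).trans (h1 j)) j).trans h2)

theorem Maj.mul {ρ a a' : ℝ} (hρ : 0 ≤ ρ) {G G' : ℤ[X]} (h : Maj ρ G a) (h' : Maj ρ G' a') :
    Maj ρ (G * G') (a * a') := by
  obtain ⟨P, h1, h2⟩ := h
  obtain ⟨P', h1', h2'⟩ := h'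
  have e : ∀ {Q : ℝ[X]}, (∀ j, 0 ≤ Q.coeff j) → 0 ≤ Q.eval ρ := fun {Q} hQ =>
    (mul_nonneg (hQ 0) (pow_nonneg hρ 0)).trans (coeff_le_eval hρ hQ 0)
  have e1 := e fun j => (abs_nonneg _).trans (h1 j)
  have e2 := e fun j => (abs_nonneg _).trans (h1' j)
  refine ⟨P * P', fun j => ?_, ?_⟩
  · rw [coeff_mul, coeff_mul]
    push_cast
    refine (abs_sum_le_sum_abs _ _).trans (sum_le_sum fun x _ => ?_)
    rw [abs_mul]
    exact mul_le_mul (h1 _) (h1' _) (abs_nonneg _) ((abs_nonneg _).trans (h1 _))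
  · rw [eval_mul]
    exact mul_le_mul h2 h2' e2 (e1.trans h2)

theorem Maj.one (ρ : ℝ) : Maj ρ 1 1 := by
  refine ⟨1, fun j => ?_, by simp⟩
  simp only [coeff_one]
  split_ifs <;> simp

theorem Maj.pow {ρ a : ℝ} (hρ : 0 ≤ ρ) {G : ℤ[X]} (h : Maj ρ G a) (n : ℕ) :
    Maj ρ (G ^ n) (a ^ n) := by
  induction n with
  | zero => simpa using Maj.one ρ
  | succ n ih => rw [pow_succ, pow_succ]; exact ih.mul hρ h

theorem Maj.mono {ρ a a' : ℝ} {G : ℤ[X]} (h : Maj ρ G a) (ha : a ≤ a') : Maj ρ G a' := by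
  obtain ⟨P, h1, h2⟩ := h
  exact ⟨P, h1, h2.trans ha⟩

theorem Maj.linear (ρ : ℝ) (q r : ℕ) : Maj ρ (C (q : ℤ) * X - C (r : ℤ)) (q * ρ + r) := by
  refine ⟨C (q : ℝ) * X + C (r : ℝ), fun j => ?_, by simp⟩
  simp only [coeff_sub, coeff_add, coeff_C_mul, coeff_X, coeff_C]
  split_ifs with h1 h2 h2
  · omega
  · simp
  · simp
  · simp

theorem exists_maj (ρ : ℝ) (G : ℤ[X]) : ∃ a, Maj ρ G a := by
  refine ⟨_, ∑ j ∈ G.support, monomial j |(G.coeff j : ℝ)|, fun j => ?_, le_rfl⟩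
  simp only [finsetSum_coeff, coeff_monomial]
  rw [sum_ite_eq']
  split_ifs with h
  · exact le_rfl
  · simp [notMem_support_iff.mp h]

/-- The arithmetic nature of the integrals. -/
theorem integral_arith (G : ℤ[X]) (N W : ℕ) (hdeg : G.natDegree ≤ N + W) (hN : N ≤ W) (α β : ℕ)
    (hα : 0 < α) (hαβ : α ≤ β) (hcα : Cont α (α ^ N) G) (hcβ : Cont β (β ^ N) G) :
    ∃ r : ℤ, (Nat.lcmUpto W : ℝ) * ∫ x in (α : ℝ)..β, aeval x G / x ^ (N + 1) =
      Nat.lcmUpto W * G.coeff N * (log β - log α) + r := by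
  let F : ℕ → ℝ → ℝ := fun j x =>
    if j = N then log x else x ^ ((j : ℤ) - N) / (((j : ℤ) - N : ℤ) : ℝ)
  have hF : ∀ j, ∀ x : ℝ, 0 < x → HasDerivAt (F j) (x ^ j / x ^ (N + 1)) x := by
    intro j x hx
    by_cases hj : j = N
    · have : F j = log := by funext y; simp [F, hj]
      rw [this, hj, show x ^ N / x ^ (N + 1) = x⁻¹ by rw [pow_succ]; field_simp]
      exact hasDerivAt_log hx.ne'
    · have : F j = fun y => y ^ ((j : ℤ) - N) / (((j : ℤ) - N : ℤ) : ℝ) := by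
        funext y; simp only [F, if_neg hj]
      rw [this]
      have h0 : (((j : ℤ) - N : ℤ) : ℝ) ≠ 0 := by exact_mod_cast (by omega : (j : ℤ) - N ≠ 0)
      have h1 := (hasDerivAt_zpow ((j : ℤ) - N) x (Or.inl hx.ne')).div_const
        (((j : ℤ) - N : ℤ) : ℝ)
      rw [mul_div_cancel_left₀ _ h0, show (j : ℤ) - N - 1 = (j : ℤ) - ((N + 1 : ℕ) : ℤ) by
        push_cast; ring, zpow_sub₀ hx.ne', zpow_natCast, zpow_natCast] at h1
      exact h1
  let s := range (N + W + 1)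
  have hα' : (0 : ℝ) < α := by exact_mod_cast hα
  have hαβ' : (α : ℝ) ≤ β := by exact_mod_cast hαβ
  have hint : ∫ x in (α : ℝ)..β, aeval x G / x ^ (N + 1) =
      ∑ j ∈ s, G.coeff j * F j β - ∑ j ∈ s, G.coeff j * F j α := by
    refine intervalIntegral.integral_eq_sub_of_hasDerivAt
      (f := fun x => ∑ j ∈ s, G.coeff j * F j x) (fun x hx => ?_) ?_
    · rw [Set.uIcc_of_le hαβ'] at hx
      have hx0 : 0 < x := hα'.trans_le hx.1
      rw [aeval_eq_sum_range' (n := N + W + 1) (by omega), sum_div]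
      refine HasDerivAt.fun_sum fun j _ => ?_
      rw [zsmul_eq_mul, mul_div_assoc]
      exact (hF j x hx0).const_mul _
    · refine ContinuousOn.intervalIntegrable ?_
      rw [Set.uIcc_of_le hαβ']
      exact (Polynomial.continuous_aeval G).continuousOn.div (by fun_prop)
        fun x hx => (pow_pos (hα'.trans_le hx.1) _).ne'
  have hend : ∀ γ : ℕ, 0 < γ → Cont γ (γ ^ N) G → ∃ r : ℤ,
      (Nat.lcmUpto W : ℝ) * ∑ j ∈ s, G.coeff j * F j γ =
        Nat.lcmUpto W * G.coeff N * log γ + r := by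
    intro γ hγ hc
    have hγ' : (γ : ℝ) ≠ 0 := by exact_mod_cast hγ.ne'
    have h1 : ∀ j ∈ s.erase N, ∃ r : ℤ, (Nat.lcmUpto W : ℝ) * (G.coeff j * F j γ) = r := by
      intro j hj
      obtain ⟨hj1, hj2⟩ := mem_erase.mp hj
      have hj3 := mem_range.mp hj2
      obtain ⟨k, hk⟩ := hc.coeff j
      have h2 : ((j : ℤ) - N) ∣ (Nat.lcmUpto W : ℤ) := by
        have h3 : ((j : ℤ) - N).natAbs ∈ Icc 1 W := mem_Icc.mpr ⟨by omega, by omega⟩
        exact Int.natAbs_dvd.mp (Int.natCast_dvd_natCast.mpr (Finset.dvd_lcm (f := id) h3))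
      obtain ⟨k', hk'⟩ := h2
      refine ⟨k * k', ?_⟩
      have h0 : (((j : ℤ) - N : ℤ) : ℝ) ≠ 0 := by exact_mod_cast (by omega : (j : ℤ) - N ≠ 0)
      have hk2 : (G.coeff j : ℝ) * (γ : ℝ) ^ j = (γ : ℝ) ^ N * k := by exact_mod_cast hk
      have hk3 : (Nat.lcmUpto W : ℝ) = (((j : ℤ) - N : ℤ) : ℝ) * k' := by exact_mod_cast hk'
      simp only [F, if_neg hj1]
      rw [zpow_sub₀ hγ', zpow_natCast, zpow_natCast, hk3, Int.cast_mul]
      field_simp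
      linear_combination (k' : ℝ) * hk2
    choose! r hr using h1
    refine ⟨∑ j ∈ s.erase N, r j, ?_⟩
    rw [← add_sum_erase s _ (mem_range.mpr (by omega : N < N + W + 1)), mul_add, mul_sum,
      sum_congr rfl hr]
    simp [F, mul_assoc]
  obtain ⟨r1, h1⟩ := hend α hα hcα
  obtain ⟨r2, h2⟩ := hend β (by omega) hcβ
  refine ⟨r2 - r1, ?_⟩
  rw [hint, mul_sub, h1, h2]
  push_cast
  ring

end Pool.Agent.Lib.Common.LogApprox
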