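import Mathlib
import Pool.Agent.Lib.Common.LogApprox.Cheb
import Pool.Agent.Lib.Common.LogApprox.Poly

/-!
Rhin's method: polynomial lower bounds for linear forms in logarithms of rational numbers from
the integrals `∫ E(x) H(x)^n / x^(d n + 1) dx`.
-/

set_option autoImplicit false

namespace Pool.Agent.Lib.Common.LogApprox

open Finset Real Polynomial

theorem approx {ι : Type} [Fintype ι] (α β : ι → ℕ) (hα : ∀ i, 0 < α i) (hαβ : ∀ i, α i ≤ β i)
    (H E : ℤ[X]) (d M μ : ℕ) (hd : d ≤ M) (hdeg : H.natDegree ≤ d + M)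
    (hcα : ∀ i, Cont (α i) (α i ^ d) H) (hcβ : ∀ i, Cont (β i) (β i ^ d) H)
    (ε ε' A l ρ : ℝ) (hε : 0 < ε) (hε' : 0 < ε') (hA : 0 < A) (hl0 : 0 < l) (hρ : 0 < ρ)
    (hl : 2 ^ 8 < l ^ 5)
    (hup : ∀ i, ∀ x ∈ Set.Icc (α i : ℝ) (β i), 0 ≤ aeval x H ∧ aeval x H ≤ ε * x ^ d)
    (i0 : ι) (s t : ℝ) (hs : α i0 ≤ s) (hst : s < t) (ht : t ≤ β i0)
    (hlow : ∀ x ∈ Set.Icc s t, ε' * x ^ d ≤ aeval x H) (hMaj : Maj ρ H (A * ρ ^ d))
    (h1 : l ^ M * ε < 1) (h2 : A * l ^ M * (l ^ M * ε) ^ μ ≤ 1)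
    (h3 : A * (l ^ M * ε) ^ (μ + 1) ≤ ε') (κ : ℝ) (hκ : 0 < κ) :
    ∃ c : ℝ, 0 < c ∧ ∀ (u : ι → ℤ) (B : ℝ), 1 ≤ B → (∀ i, |(u i : ℝ)| ≤ B) →
      (∀ i, ∀ x ∈ Set.Icc (α i : ℝ) (β i), 0 ≤ u i * aeval x E) →
      (∀ x ∈ Set.Icc s t, κ * B ≤ u i0 * aeval x E) →
      c / B ^ μ ≤ |∑ i, u i * (log (β i) - log (α i))| := by
  classical
  obtain ⟨C0, hC0, hlcm⟩ := lcmUpto_le l hl0 hl
  obtain ⟨K0, hK0⟩ := exists_maj ρ E
  set K := |K0| + 1 with hK
  have hKpos : 0 < K := by positivity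
  set q := l ^ M * ε with hq
  have hq0 : 0 < q := by positivity
  set e := E.natDegree
  have hα' : ∀ i, (1 : ℝ) ≤ α i := fun i => by exact_mod_cast hα i
  have hαβ' : ∀ i, (α i : ℝ) ≤ β i := fun i => by exact_mod_cast hαβ i
  -- the integrand
  let f : ℕ → ℝ → ℝ := fun n x => aeval x (E * H ^ n) / x ^ (d * n + 1)
  have hf : ∀ n x, 0 < x → f n x = aeval x E / x * (aeval x H / x ^ d) ^ n := by
    intro n x hx
    simp only [f, map_mul, map_pow, div_pow, ← pow_mul, pow_succ]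
    field_simp
  have hfc : ∀ n i, ContinuousOn (f n) (Set.Icc (α i : ℝ) (β i)) := fun n i =>
    (Polynomial.continuous_aeval _).continuousOn.div (by fun_prop)
      fun x hx => (pow_pos (by linarith [hα' i, hx.1]) _).ne'
  let I : ℕ → ι → ℝ := fun n i => ∫ x in (α i : ℝ)..(β i), f n x
  -- upper bound for the integrals
  have hIup : ∃ K1 : ℝ, 0 < K1 ∧ ∀ n i, |I n i| ≤ K1 * ε ^ n := by
    have h4 : ∀ i, ∃ b : ℝ, ∀ x ∈ Set.Icc (α i : ℝ) (β i), ‖aeval x E‖ ≤ b := fun i =>
      isCompact_Icc.exists_bound_of_continuousOn (Polynomial.continuous_aeval E).continuousOn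
    choose b hb using h4
    refine ⟨∑ i, |b i| * (β i - α i) + 1, add_pos_of_nonneg_of_pos
      (sum_nonneg fun i _ => mul_nonneg (abs_nonneg _) (by linarith [hαβ' i])) one_pos,
      fun n i => ?_⟩
    have h5 : ‖I n i‖ ≤ |b i| * ε ^ n * |(β i : ℝ) - α i| := by
      refine intervalIntegral.norm_integral_le_of_norm_le_const fun x hx => ?_
      rw [Set.uIoc_of_le (hαβ' i)] at hx
      have hx' : x ∈ Set.Icc (α i : ℝ) (β i) := ⟨hx.1.le, hx.2⟩
      have hx1 : 1 ≤ x := (hα' i).trans hx'.1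
      have h6 : 0 ≤ aeval x H / x ^ d := div_nonneg (hup i x hx').1 (by positivity)
      have h7 : aeval x H / x ^ d ≤ ε := by
        rw [div_le_iff₀ (by positivity)]; exact (hup i x hx').2
      rw [hf n x (by linarith), Real.norm_eq_abs, abs_mul, abs_of_nonneg (pow_nonneg h6 n)]
      refine mul_le_mul ?_ (pow_le_pow_left₀ h6 h7 n) (pow_nonneg h6 n) (abs_nonneg _)
      rw [abs_div, abs_of_pos (by linarith : 0 < x)]
      exact (div_le_self (abs_nonneg _) hx1).trans ((hb i x hx').trans (le_abs_self _))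
    rw [Real.norm_eq_abs, abs_of_nonneg (by linarith [hαβ' i] : (0 : ℝ) ≤ β i - α i)] at h5
    have h6 : |b i| * ((β i : ℝ) - α i) ≤ ∑ i, |b i| * ((β i : ℝ) - α i) :=
      single_le_sum (f := fun i => |b i| * ((β i : ℝ) - α i))
        (fun i _ => mul_nonneg (abs_nonneg _) (by linarith [hαβ' i])) (mem_univ i)
    have h7 : 0 < ε ^ n := by positivity
    nlinarith
  obtain ⟨K1, hK1, hIup⟩ := hIup
  -- the coefficient
  have hcoef : ∀ n, |((E * H ^ n).coeff (d * n) : ℝ)| ≤ K * A ^ n := by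
    intro n
    have h4 := ((hK0.mono (show K0 ≤ K by linarith [le_abs_self K0])).mul hρ.le
      (hMaj.pow hρ.le n)).coeff hρ.le (d * n)
    rw [mul_pow, ← pow_mul, ← mul_assoc] at h4
    exact le_of_mul_le_mul_right h4 (by positivity)
  have harith : ∀ n i, ∃ r : ℤ, (Nat.lcmUpto (M * n + e) : ℝ) * I n i =
      Nat.lcmUpto (M * n + e) * (E * H ^ n).coeff (d * n) * (log (β i) - log (α i)) + r := by
    intro n i
    refine integral_arith _ _ _ ?_ ?_ _ _ (hα i) (hαβ i) ?_ ?_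
    · refine natDegree_mul_le.trans ?_
      have h4 : (H ^ n).natDegree ≤ n * (d + M) :=
        natDegree_pow_le.trans (Nat.mul_le_mul_left _ hdeg)
      nlinarith
    · nlinarith
    · simpa [pow_mul] using (Cont.one (α i) E).mul ((hcα i).pow n)
    · simpa [pow_mul] using (Cont.one (β i) E).mul ((hcβ i).pow n)
  set K2 : ℝ := Fintype.card ι * (C0 * l ^ e * K1) + 1 with hK2
  have hK21 : 1 ≤ K2 := le_add_of_nonneg_left (by positivity)
  have ht0 : 0 < t := by linarith [hα' i0]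
  set c0 := q / (2 * K2) with hc0
  have hc00 : 0 < c0 := by positivity
  refine ⟨min (c0 ^ μ / (2 * (C0 * l ^ e * K))) (κ * ((t - s) / t) * c0 ^ (μ + 1) / K),
    lt_min (by positivity) (by have := sub_pos.mpr hst; positivity), fun u B hB hu hsign hbig => ?_⟩
  set Λ := ∑ i, u i * (log (β i) - log (α i)) with hΛ
  obtain ⟨n0, hn1, hn2⟩ := exists_nat_pow_near_of_lt_one (x := 1 / (2 * K2 * B)) (y := q)
    (by positivity) (by rw [div_le_one (by positivity)]; nlinarith) hq0 h1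
  set n := n0 + 1 with hn
  have hqn : c0 / B ≤ q ^ n := by
    rw [hn, pow_succ, hc0, show q / (2 * K2) / B = 1 / (2 * K2 * B) * q by field_simp]
    exact mul_le_mul_of_nonneg_right hn2 hq0.le
  choose r hr using harith n
  set L : ℝ := ((Nat.lcmUpto (M * n + e) : ℕ) : ℝ) with hL
  set a : ℝ := (((E * H ^ n).coeff (d * n) : ℤ) : ℝ) with ha
  have hL0 : 0 < L := by rw [hL]; exact_mod_cast Nat.lcmUpto_pos _
  have hLle : L ≤ C0 * l ^ e * (l ^ M) ^ n := by
    refine (hlcm _).trans (le_of_eq ?_)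
    rw [pow_add, pow_mul]; ring
  have hmain : L * ∑ i, u i * I n i = L * a * Λ + ((∑ i, u i * r i : ℤ) : ℝ) := by
    rw [hΛ, mul_sum, mul_sum]
    push_cast
    rw [← sum_add_distrib]
    exact sum_congr rfl fun i _ => by linear_combination (u i : ℝ) * hr i
  have haK := hcoef n
  by_cases hR : ∑ i, u i * r i = 0
  · rw [hR, Int.cast_zero, add_zero, mul_assoc] at hmain
    have h4 : ∑ i, u i * I n i = a * Λ := mul_left_cancel₀ hL0.ne' hmain
    have h5 : ∀ i, ∀ x ∈ Set.Icc (α i : ℝ) (β i), 0 ≤ u i * f n x := by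
      intro i x hx
      have hx0 : 0 < x := by linarith [hα' i, hx.1]
      rw [hf n x hx0, ← mul_assoc, ← mul_div_assoc]
      exact mul_nonneg (div_nonneg (hsign i x hx) hx0.le)
        (pow_nonneg (div_nonneg (hup i x hx).1 (by positivity)) n)
    have h6 : ∀ i, u i * I n i = ∫ x in (α i : ℝ)..(β i), u i * f n x := fun i =>
      (intervalIntegral.integral_const_mul _ _).symm
    have h7 : κ * B / t * ε' ^ n * (t - s) ≤ u i0 * I n i0 := by
      rw [h6]
      have hcont : ContinuousOn (fun x => u i0 * f n x) (Set.Icc (α i0 : ℝ) (β i0)) :=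
        continuousOn_const.mul (hfc n i0)
      have h8 : ∫ x in s..t, u i0 * f n x ≤ ∫ x in (α i0 : ℝ)..(β i0), u i0 * f n x := by
        refine intervalIntegral.integral_mono_interval hs hst.le ht ?_ ?_
        · refine MeasureTheory.ae_restrict_of_forall_mem measurableSet_Ioc fun x hx => ?_
          exact h5 i0 x ⟨hx.1.le, hx.2⟩
        · exact (hcont.mono (by rw [Set.uIcc_of_le (hαβ' i0)])).intervalIntegrable
      refine le_trans ?_ h8
      have h9 : ∫ _ in s..t, κ * B / t * ε' ^ n = κ * B / t * ε' ^ n * (t - s) := by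
        rw [intervalIntegral.integral_const, smul_eq_mul, mul_comm]
      rw [← h9]
      refine intervalIntegral.integral_mono_on hst.le (by simp) ?_ fun x hx => ?_
      · exact (hcont.mono (by
          rw [Set.uIcc_of_le hst.le]; exact Set.Icc_subset_Icc hs ht)).intervalIntegrable
      · have hx0 : 0 < x := by linarith [hα' i0, hx.1]
        rw [hf n x hx0, ← mul_assoc, ← mul_div_assoc]
        have h10 : ε' ≤ aeval x H / x ^ d := by
          rw [le_div_iff₀ (by positivity)]; exact hlow x hx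
        have h11 : κ * B / t ≤ u i0 * aeval x E / x :=
          div_le_div₀ ((by positivity : 0 ≤ κ * B).trans (hbig x hx)) (hbig x hx) hx0 hx.2
        exact mul_le_mul h11 (pow_le_pow_left₀ hε'.le h10 n) (by positivity)
          ((by positivity : 0 ≤ κ * B / t).trans h11)
    have h8 : u i0 * I n i0 ≤ ∑ i, u i * I n i :=
      single_le_sum (f := fun i => u i * I n i) (fun i _ => by
        rw [h6]
        exact intervalIntegral.integral_nonneg (hαβ' i) (h5 i)) (mem_univ i0)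
    have h9 : a * Λ ≤ K * A ^ n * |Λ| := by
      refine (le_abs_self _).trans ?_
      rw [abs_mul]
      exact mul_le_mul_of_nonneg_right haK (abs_nonneg _)
    have h10 : A ^ n * (c0 / B) ^ (μ + 1) ≤ ε' ^ n := by
      calc A ^ n * (c0 / B) ^ (μ + 1) ≤ A ^ n * (q ^ n) ^ (μ + 1) := by gcongr
        _ = (A * q ^ (μ + 1)) ^ n := by rw [mul_pow A, ← pow_mul q, ← pow_mul q, mul_comm n]
        _ ≤ ε' ^ n := by gcongr
    refine (div_le_div_of_nonneg_right (min_le_right _ _) (by positivity)).trans ?_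
    have hts := sub_pos.mpr hst
    have h11 : κ * B / t * (A ^ n * (c0 / B) ^ (μ + 1)) * (t - s) ≤ K * A ^ n * |Λ| := by
      refine le_trans ?_ (h7.trans (h8.trans (h4.le.trans h9)))
      gcongr
    rw [div_div, div_le_iff₀ (by positivity)]
    have h12 : κ * B / t * (A ^ n * (c0 / B) ^ (μ + 1)) * (t - s) =
        A ^ n / B ^ μ * (κ * ((t - s) / t) * c0 ^ (μ + 1)) := by
      rw [div_pow, pow_succ B]; field_simp
    rw [h12, div_mul_eq_mul_div, div_le_iff₀ (by positivity)] at h11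
    refine le_of_mul_le_mul_left (h11.trans (le_of_eq (by ring))) (pow_pos hA n)
  · have h4 : (1 : ℝ) ≤ |((∑ i, u i * r i : ℤ) : ℝ)| := by exact_mod_cast Int.one_le_abs hR
    have h5 : |L * ∑ i, u i * I n i| ≤ 1 / 2 := by
      rw [abs_mul, abs_of_pos hL0]
      have h6 : |∑ i, u i * I n i| ≤ Fintype.card ι * (B * (K1 * ε ^ n)) := by
        refine (abs_sum_le_sum_abs _ _).trans ?_
        refine (sum_le_card_nsmul _ _ (B * (K1 * ε ^ n)) fun i _ => ?_).trans (by simp)
        rw [abs_mul]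
        exact mul_le_mul (hu i) (hIup n i) (abs_nonneg _) (by linarith)
      calc L * |∑ i, u i * I n i|
          ≤ C0 * l ^ e * (l ^ M) ^ n * (Fintype.card ι * (B * (K1 * ε ^ n))) := by gcongr
        _ = (Fintype.card ι * (C0 * l ^ e * K1)) * B * q ^ n := by rw [hq, mul_pow]; ring
        _ ≤ K2 * B * (1 / (2 * K2 * B)) := by gcongr; linarith
        _ = 1 / 2 := by field_simp
    have h6 : 1 / 2 ≤ |L * a * Λ| := by
      have := abs_sub_abs_le_abs_sub (((∑ i, u i * r i : ℤ) : ℝ)) (L * ∑ i, u i * I n i)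
      rw [hmain, show ((∑ i, u i * r i : ℤ) : ℝ) - (L * a * Λ + ((∑ i, u i * r i : ℤ) : ℝ)) =
        -(L * a * Λ) by ring, abs_neg, ← hmain] at this
      linarith
    have h7 : |L * a * Λ| ≤ C0 * l ^ e * (l ^ M) ^ n * (K * A ^ n) * |Λ| := by
      rw [abs_mul, abs_mul, abs_of_pos hL0]
      gcongr
    have h8 : (A * l ^ M) ^ n * (c0 / B) ^ μ ≤ 1 := by
      calc (A * l ^ M) ^ n * (c0 / B) ^ μ ≤ (A * l ^ M) ^ n * (q ^ n) ^ μ := by gcongr
        _ = (A * l ^ M * q ^ μ) ^ n := by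
          rw [mul_pow (A * l ^ M), ← pow_mul q, ← pow_mul q, mul_comm n]
        _ ≤ 1 := pow_le_one₀ (by positivity) h2
    refine (div_le_div_of_nonneg_right (min_le_left _ _) (by positivity)).trans ?_
    rw [div_div, div_le_iff₀ (by positivity)]
    have h9 : (c0 / B) ^ μ * (1 / 2) ≤
        (c0 / B) ^ μ * (C0 * l ^ e * (l ^ M) ^ n * (K * A ^ n) * |Λ|) := by
      gcongr; exact h6.trans h7
    have h10 : (c0 / B) ^ μ * (C0 * l ^ e * (l ^ M) ^ n * (K * A ^ n) * |Λ|) ≤
        C0 * l ^ e * K * |Λ| := by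
      calc _ = ((A * l ^ M) ^ n * (c0 / B) ^ μ) * (C0 * l ^ e * K * |Λ|) := by rw [mul_pow]; ring
        _ ≤ 1 * (C0 * l ^ e * K * |Λ|) := by gcongr
        _ = _ := one_mul _
    have h11 := h9.trans h10
    rw [div_pow, div_mul_eq_mul_div, div_le_iff₀ (by positivity)] at h11
    linarith

end Pool.Agent.Lib.Common.LogApprox
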