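import Mathlib
import Pool.Agent.Lib.Common.LogApprox.Poly

/-!
Products of even powers of linear factors, and a checker for bounds on intervals.
-/

set_option autoImplicit false

namespace Pool.Agent.Lib.Common.LogApprox

open Polynomial

/-- `∏ (q X - r)^(2 e)`. -/
noncomputable def prodP : List (ℕ × ℕ × ℕ) → ℤ[X]
  | [] => 1
  | f :: fs => (C (f.1 : ℤ) * X - C (f.2.1 : ℤ)) ^ (2 * f.2.2) * prodP fs

def ub (s t : ℚ) : List (ℕ × ℕ × ℕ) → ℚ
  | [] => 1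
  | f :: fs => max |f.1 * s - f.2.1| |f.1 * t - f.2.1| ^ (2 * f.2.2) * ub s t fs

def lb (s t : ℚ) : List (ℕ × ℕ × ℕ) → ℚ
  | [] => 1
  | f :: fs => max (max (f.1 * s - f.2.1) (f.2.1 - f.1 * t)) 0 ^ (2 * f.2.2) * lb s t fs

def mj (ρ : ℚ) : List (ℕ × ℕ × ℕ) → ℚ
  | [] => 1
  | f :: fs => (f.1 * ρ + f.2.1) ^ (2 * f.2.2) * mj ρ fs

def ct (γ : ℕ) : List (ℕ × ℕ × ℕ) → ℕ
  | [] => 1
  | f :: fs => Nat.gcd (f.1 * γ) f.2.1 ^ (2 * f.2.2) * ct γ fs

def dg : List (ℕ × ℕ × ℕ) → ℕ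
  | [] => 0
  | f :: fs => 2 * f.2.2 + dg fs

def chk (fs : List (ℕ × ℕ × ℕ)) (d : ℕ) (ε : ℚ) : ℚ → List ℚ → Bool
  | s, [] => decide (ub s s fs ≤ ε * s ^ d)
  | s, t :: l => decide (s ≤ t) && (decide (ub s t fs ≤ ε * s ^ d) && chk fs d ε t l)

theorem aeval_prodP_cons (f : ℕ × ℕ × ℕ) (fs : List (ℕ × ℕ × ℕ)) (x : ℝ) :
    aeval x (prodP (f :: fs)) = |f.1 * x - f.2.1| ^ (2 * f.2.2) * aeval x (prodP fs) := by
  simp [prodP, pow_mul]

theorem prodP_nonneg (fs : List (ℕ × ℕ × ℕ)) (x : ℝ) : 0 ≤ aeval x (prodP fs) := by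
  induction fs with
  | nil => simp [prodP]
  | cons f fs ih => rw [aeval_prodP_cons]; positivity

theorem prodP_le_ub (fs : List (ℕ × ℕ × ℕ)) (s t : ℚ) (x : ℝ) (hs : s ≤ x) (ht : x ≤ t) :
    aeval x (prodP fs) ≤ ub s t fs := by
  induction fs with
  | nil => simp [prodP, ub]
  | cons f fs ih =>
    rw [aeval_prodP_cons, ub]
    push_cast
    refine mul_le_mul (pow_le_pow_left₀ (abs_nonneg _) ?_ _) ih (prodP_nonneg _ _) (by positivity)
    have h0 : (0 : ℝ) ≤ f.1 := by positivity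
    refine abs_le_max_abs_abs ?_ ?_ <;> nlinarith

theorem lb_le_prodP (fs : List (ℕ × ℕ × ℕ)) (s t : ℚ) (x : ℝ) (hs : s ≤ x) (ht : x ≤ t) :
    0 ≤ (lb s t fs : ℝ) ∧ lb s t fs ≤ aeval x (prodP fs) := by
  induction fs with
  | nil => simp [prodP, lb]
  | cons f fs ih =>
    rw [aeval_prodP_cons, lb]
    push_cast
    refine ⟨mul_nonneg (pow_nonneg (le_max_right _ _) _) ih.1, ?_⟩
    refine mul_le_mul (pow_le_pow_left₀ (le_max_right _ _) ?_ _) ih.2 ih.1 (by positivity)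
    have h0 : (0 : ℝ) ≤ f.1 := by positivity
    refine max_le (max_le ?_ ?_) (abs_nonneg _)
    · exact le_trans (by nlinarith) (le_abs_self _)
    · exact le_trans (by nlinarith) (neg_le_abs _)

theorem maj_prodP (fs : List (ℕ × ℕ × ℕ)) (ρ : ℚ) (hρ : 0 ≤ ρ) :
    Maj ρ (prodP fs) (mj ρ fs) := by
  have hρ' : (0 : ℝ) ≤ ρ := by exact_mod_cast hρ
  induction fs with
  | nil => simpa [prodP, mj] using Maj.one ρ
  | cons f fs ih =>
    rw [prodP, mj]
    push_cast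
    exact ((Maj.linear ρ _ _).pow hρ' _).mul hρ' ih

theorem cont_prodP (fs : List (ℕ × ℕ × ℕ)) (γ : ℕ) : Cont γ (ct γ fs) (prodP fs) := by
  induction fs with
  | nil => simpa [prodP, ct] using Cont.one γ 1
  | cons f fs ih =>
    rw [prodP, ct, Nat.cast_mul, Nat.cast_pow]
    refine ((Cont.linear _ _ _ _ ?_ ?_).pow _).mul ih
    · exact_mod_cast Nat.gcd_dvd_left _ _
    · exact_mod_cast Nat.gcd_dvd_right _ _

theorem cont_of_dvd (fs : List (ℕ × ℕ × ℕ)) (γ d : ℕ) (h : γ ^ d ∣ ct γ fs) :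
    Cont γ (γ ^ d) (prodP fs) :=
  (cont_prodP fs γ).of_dvd (by exact_mod_cast h)

theorem natDegree_prodP (fs : List (ℕ × ℕ × ℕ)) : (prodP fs).natDegree ≤ dg fs := by
  induction fs with
  | nil => simp [prodP, dg]
  | cons f fs ih =>
    rw [prodP, dg]
    refine natDegree_mul_le.trans (add_le_add (natDegree_pow_le.trans ?_) ih)
    have : (C (f.1 : ℤ) * X - C (f.2.1 : ℤ)).natDegree ≤ 1 := by compute_degree
    nlinarith

theorem chk_sound (fs : List (ℕ × ℕ × ℕ)) (d : ℕ) (ε : ℚ) (hε : 0 ≤ ε) (l : List ℚ) :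
    ∀ s : ℚ, 0 ≤ s → chk fs d ε s l = true → ∀ x : ℝ, s ≤ x → x ≤ (l.getLastD s : ℚ) →
      aeval x (prodP fs) ≤ ε * x ^ d := by
  have key : ∀ s t : ℚ, 0 ≤ s → ub s t fs ≤ ε * s ^ d → ∀ x : ℝ, s ≤ x → x ≤ t →
      aeval x (prodP fs) ≤ ε * x ^ d := by
    intro s t hs h x h1 h2
    have h3 : (ub s t fs : ℝ) ≤ ε * s ^ d := by exact_mod_cast h
    have hs' : (0 : ℝ) ≤ s := by exact_mod_cast hs
    have hε' : (0 : ℝ) ≤ ε := by exact_mod_cast hε
    refine (prodP_le_ub fs s t x h1 h2).trans (h3.trans ?_)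
    gcongr
  induction l with
  | nil =>
    intro s hs h x h1 h2
    exact key s s hs (by simpa [chk] using h) x h1 h2
  | cons t l ih =>
    intro s hs h x h1 h2
    simp only [chk, Bool.and_eq_true, decide_eq_true_eq] at h
    rcases le_total x t with h3 | h3
    · exact key s t hs h.2.1 x h1 h3
    · exact ih t (hs.trans h.1) h.2.2 x h3 (by rwa [List.getLastD_cons] at h2)

end Pool.Agent.Lib.Common.LogApprox
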