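import Mathlib
import Pool.Agent.Lib.Common.LogApprox.Approx
import Pool.Agent.Lib.Common.LogApprox.Check

/-!
Explicit polynomial lower bounds for `|p log 2 - k log 3|` and `|p log 2 - k log 5|`
(after Rhin and Wu, with Chebyshev's bound in place of the prime number theorem).
-/

set_option autoImplicit false

namespace Pool.Agent.Lib.Common.LogApprox

open Polynomial Real Finset

def fs3 : List (ℕ × ℕ × ℕ) := [(1, 2, 8), (1, 3, 13), (1, 4, 9), (5, 12, 3), (11, 24, 1)]

def fs5 : List (ℕ × ℕ × ℕ) := [(1, 15, 32), (1, 16, 39), (1, 18, 60), (1, 20, 44)]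

def l5a : List ℚ :=
  [62025/4096, 62263/4096, 15599/1024, 62483/4096, 62545/4096, 62593/4096, 62631/4096,
   62663/4096, 62691/4096, 15679/1024, 62739/4096, 7845/512, 15695/1024, 3925/256, 15705/1024,
   7855/512, 62861/4096, 62883/4096, 31453/2048, 15733/1024, 62961/4096, 62995/4096, 15759/1024,
   63087/4096, 63153/4096, 63245/4096, 63385/4096, 15907/1024, 64161/4096, 16]

def l5b : List ℚ :=
  [33617/2048, 68109/4096, 17199/1024, 69521/4096, 35277/2048, 36423/2048, 18]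

def l5c : List ℚ :=
  [76543/4096, 38717/2048, 38933/2048, 78121/4096, 39145/2048, 78411/4096, 39251/2048,
   39287/2048, 78633/4096, 39341/2048, 19681/1024, 78761/4096, 39397/2048, 78823/4096,
   39425/2048, 78875/4096, 39449/2048, 9865/512, 78941/4096, 78961/4096, 78981/4096, 79001/4096,
   79021/4096, 79041/4096, 79061/4096, 79081/4096, 39551/2048, 19781/1024, 79147/4096,
   19793/1024, 79199/4096, 19807/1024, 19815/1024, 1239/64, 39669/2048, 79387/4096, 39723/2048,
   79519/4096, 19903/1024, 79737/4096, 79917/4096, 40101/2048, 40367/2048, 20]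

def l3a : List ℚ :=
  [8459/4096, 4283/2048, 8627/4096, 8669/4096, 8701/4096, 8729/4096, 2189/1024, 8785/4096,
   2205/1024, 8869/4096, 4481/2048, 2257/1024, 4533/2048, 2273/1024, 9111/4096, 4563/2048,
   9139/4096, 4575/2048, 1145/512, 4585/2048, 9179/4096, 2297/1024, 9197/4096, 4603/2048, 9/4,
   4613/2048, 4619/2048, 9251/4096, 9267/4096, 4643/2048, 9311/4096, 9345/4096, 9395/4096,
   4739/2048, 9649/4096, 5035/2048, 5171/2048, 10633/4096, 2775/1024, 3]

def l3b : List ℚ :=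
  [13563/4096, 219/64, 14245/4096, 899/256, 7239/2048, 14547/4096, 1825/512, 14643/4096,
   7339/2048, 14709/4096, 921/256, 1845/512, 7391/2048, 14803/4096, 14823/4096, 7421/2048,
   14861/4096, 465/128, 3725/1024, 1865/512, 7471/2048, 14965/4096, 7495/2048, 15019/4096,
   3763/1024, 15091/4096, 15139/4096, 15201/4096, 7643/2048, 3853/1024, 7813/2048, 16089/4096,
   4]

theorem chk5a : chk fs5 152 (1 / 2 ^ 379) 15 l5a = true := by decide +kernel
theorem chk5b : chk fs5 152 (1 / 2 ^ 379) 16 l5b = true := by decide +kernel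
theorem chk5c : chk fs5 152 (1 / 2 ^ 379) 18 l5c = true := by decide +kernel
theorem chk3a : chk fs3 34 (1 / 2 ^ 71) 2 l3a = true := by decide +kernel
theorem chk3b : chk fs3 34 (1 / 2 ^ 71) 3 l3b = true := by decide +kernel

theorem low_of (fs : List (ℕ × ℕ × ℕ)) (d : ℕ) (ε s t : ℚ) (hε : 0 ≤ ε) (hs : 0 ≤ s)
    (h : ε * t ^ d ≤ lb s t fs) :
    ∀ x ∈ Set.Icc (s : ℝ) (t : ℝ), (ε : ℝ) * x ^ d ≤ aeval x (prodP fs) := by
  intro x hx
  have h1 : (ε : ℝ) * (t : ℝ) ^ d ≤ lb s t fs := by exact_mod_cast h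
  have h2 : (0 : ℝ) ≤ s := by exact_mod_cast hs
  have h3 : (0 : ℝ) ≤ ε := by exact_mod_cast hε
  refine le_trans ?_ (h1.trans (lb_le_prodP fs s t x hx.1 hx.2).2)
  have := hx.2
  have := h2.trans hx.1
  gcongr

theorem maj_of (fs : List (ℕ × ℕ × ℕ)) (d : ℕ) (A ρ : ℚ) (hρ : 0 ≤ ρ) (h : mj ρ fs ≤ A * ρ ^ d) :
    Maj (ρ : ℝ) (prodP fs) ((A : ℝ) * (ρ : ℝ) ^ d) :=
  (maj_prodP fs ρ hρ).mono (by exact_mod_cast h)

theorem approx3 : ∃ c : ℝ, 0 < c ∧ ∀ (u : Fin 2 → ℤ) (B : ℝ), 1 ≤ B → (∀ i, |(u i : ℝ)| ≤ B) →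
    0 ≤ u 1 → B / 4 ≤ -u 0 → c / B ^ 12 ≤ |u 0 * (log 3 - log 2) + u 1 * (log 4 - log 3)| := by
  obtain ⟨c, hc, h⟩ := approx ![2, 3] ![3, 4] (by decide) (by decide) (prodP fs3) (X - C 3)
    34 34 12 le_rfl ((natDegree_prodP _).trans (by decide))
    (Fin.forall_fin_two.mpr ⟨cont_of_dvd fs3 2 34 (by decide +kernel),
      cont_of_dvd fs3 3 34 (by decide +kernel)⟩)
    (Fin.forall_fin_two.mpr ⟨cont_of_dvd fs3 3 34 (by decide +kernel),
      cont_of_dvd fs3 4 34 (by decide +kernel)⟩)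
    ((1 / 2 ^ 71 : ℚ) : ℝ) ((1 / 2 ^ 72 : ℚ) : ℝ) ((2 ^ 142 : ℚ) : ℝ) ((379 / 125 : ℚ) : ℝ)
    ((20 / 7 : ℚ) : ℝ) (by positivity) (by positivity) (by positivity) (by positivity)
    (by positivity) (by norm_num)
    (Fin.forall_fin_two.mpr ⟨fun x hx => ⟨prodP_nonneg _ _,
      chk_sound _ _ _ (by positivity) _ 2 (by norm_num) chk3a x (by simpa using hx.1)
        (by simpa [l3a] using hx.2)⟩, fun x hx => ⟨prodP_nonneg _ _,
      chk_sound _ _ _ (by positivity) _ 3 (by norm_num) chk3b x (by simpa using hx.1)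
        (by simpa [l3b] using hx.2)⟩⟩)
    0 ((1121 / 500 : ℚ) : ℝ) ((2243 / 1000 : ℚ) : ℝ) (by norm_num) (by norm_num) (by norm_num)
    (low_of _ _ _ _ _ (by positivity) (by positivity) (by decide +kernel))
    (maj_of _ _ _ _ (by positivity) (by decide +kernel))
    (by exact_mod_cast (show (379 / 125 : ℚ) ^ 34 * (1 / 2 ^ 71) < 1 by decide +kernel))
    (by exact_mod_cast (show (2 ^ 142 : ℚ) * (379 / 125) ^ 34 *
      ((379 / 125) ^ 34 * (1 / 2 ^ 71)) ^ 12 ≤ 1 by decide +kernel))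
    (by exact_mod_cast (show (2 ^ 142 : ℚ) * ((379 / 125) ^ 34 * (1 / 2 ^ 71)) ^ (12 + 1) ≤
      1 / 2 ^ 72 by decide +kernel))
    (1 / 8) (by norm_num)
  refine ⟨c, hc, fun u B hB hu h1 h0 => ?_⟩
  have h1' : (0 : ℝ) ≤ u 1 := by exact_mod_cast h1
  have := h u B hB hu (Fin.forall_fin_two.mpr ⟨fun x hx => ?_, fun x hx => ?_⟩) (fun x hx => ?_)
  · simpa [Fin.sum_univ_two] using this
  · have h2 : x ≤ 3 := by simpa using hx.2
    rw [map_sub, aeval_X, aeval_C, algebraMap_int_eq, eq_intCast, Int.cast_ofNat]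
    nlinarith
  · have h2 : 3 ≤ x := by simpa using hx.1
    rw [map_sub, aeval_X, aeval_C, algebraMap_int_eq, eq_intCast, Int.cast_ofNat]
    nlinarith
  · have h2 : x ≤ 2243 / 1000 := by simpa using hx.2
    rw [map_sub, aeval_X, aeval_C, algebraMap_int_eq, eq_intCast, Int.cast_ofNat]
    nlinarith

theorem approx5 : ∃ c : ℝ, 0 < c ∧ ∀ (u : Fin 3 → ℤ) (B : ℝ), 1 ≤ B → (∀ i, |(u i : ℝ)| ≤ B) →
    0 ≤ u 0 → u 1 ≤ 0 → B / 7 ≤ -u 2 → c / B ^ 24 ≤
      |u 0 * (log 16 - log 15) + u 1 * (log 18 - log 16) + u 2 * (log 20 - log 18)| := by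
  have F3 : ∀ {P : Fin 3 → Prop}, P 0 → P 1 → P 2 → ∀ i, P i := fun h0 h1 h2 i => by
    fin_cases i <;> assumption
  obtain ⟨c, hc, h⟩ := approx ![15, 16, 18] ![16, 18, 20] (by decide) (by decide) (prodP fs5)
    (C 16 - X) 152 198 24 (by norm_num) ((natDegree_prodP _).trans (by decide))
    (F3 (cont_of_dvd fs5 15 152 (by decide +kernel)) (cont_of_dvd fs5 16 152 (by decide +kernel))
      (cont_of_dvd fs5 18 152 (by decide +kernel)))
    (F3 (cont_of_dvd fs5 16 152 (by decide +kernel)) (cont_of_dvd fs5 18 152 (by decide +kernel))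
      (cont_of_dvd fs5 20 152 (by decide +kernel)))
    ((1 / 2 ^ 379 : ℚ) : ℝ) ((1 / 2 ^ 381 : ℚ) : ℝ) ((2 ^ 1163 : ℚ) : ℝ) ((379 / 125 : ℚ) : ℝ)
    ((40 / 3 : ℚ) : ℝ) (by positivity) (by positivity) (by positivity) (by positivity)
    (by positivity) (by norm_num)
    (F3 (fun x hx => ⟨prodP_nonneg _ _,
      chk_sound _ _ _ (by positivity) _ 15 (by norm_num) chk5a x (by simpa using hx.1)
        (by simpa [l5a] using hx.2)⟩) (fun x hx => ⟨prodP_nonneg _ _,
      chk_sound _ _ _ (by positivity) _ 16 (by norm_num) chk5b x (by simpa using hx.1)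
        (by simpa [l5b] using hx.2)⟩) (fun x hx => ⟨prodP_nonneg _ _,
      chk_sound _ _ _ (by positivity) _ 18 (by norm_num) chk5c x (by simpa using hx.1)
        (by simpa [l5c] using hx.2)⟩))
    2 ((1929 / 100 : ℚ) : ℝ) ((19291 / 1000 : ℚ) : ℝ) (by simp; norm_num) (by norm_num)
    (by simp; norm_num)
    (low_of _ _ _ _ _ (by positivity) (by positivity) (by decide +kernel))
    (maj_of _ _ _ _ (by positivity) (by decide +kernel))
    (by
      have : (379 / 125 : ℚ) ^ 198 * (1 / 2 ^ 379) < 1 := by decide +kernel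
      simpa only [Rat.cast_mul, Rat.cast_pow, Rat.cast_one] using (Rat.cast_lt (K := ℝ)).mpr this)
    (by
      have : (2 ^ 1163 : ℚ) * (379 / 125) ^ 198 *
        ((379 / 125) ^ 198 * (1 / 2 ^ 379)) ^ 24 ≤ 1 := by decide +kernel
      simpa only [Rat.cast_mul, Rat.cast_pow, Rat.cast_one] using (Rat.cast_le (K := ℝ)).mpr this)
    (by
      have : (2 ^ 1163 : ℚ) * ((379 / 125) ^ 198 * (1 / 2 ^ 379)) ^ (24 + 1) ≤
        1 / 2 ^ 381 := by decide +kernel
      simpa only [Rat.cast_mul, Rat.cast_pow] using (Rat.cast_le (K := ℝ)).mpr this)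
    (1 / 7) (by norm_num)
  refine ⟨c, hc, fun u B hB hu h0 h1 h2 => ?_⟩
  have h0' : (0 : ℝ) ≤ u 0 := by exact_mod_cast h0
  have h1' : (u 1 : ℝ) ≤ 0 := by exact_mod_cast h1
  have := h u B hB hu (F3 (fun x hx => ?_) (fun x hx => ?_) (fun x hx => ?_)) (fun x hx => ?_)
  · simpa [Fin.sum_univ_three] using this
  · have h3 : x ≤ 16 := by simpa using hx.2
    rw [map_sub, aeval_X, aeval_C, algebraMap_int_eq, eq_intCast, Int.cast_ofNat]
    nlinarith
  · have h3 : 16 ≤ x := by simpa using hx.1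
    rw [map_sub, aeval_X, aeval_C, algebraMap_int_eq, eq_intCast, Int.cast_ofNat]
    nlinarith
  · have h3 : 18 ≤ x := by simpa using hx.1
    rw [map_sub, aeval_X, aeval_C, algebraMap_int_eq, eq_intCast, Int.cast_ofNat]
    nlinarith
  · have h3 : 1929 / 100 ≤ x := by simpa using hx.1
    rw [map_sub, aeval_X, aeval_C, algebraMap_int_eq, eq_intCast, Int.cast_ofNat]
    nlinarith

theorem bound_of_cases (μ : ℕ) (y c c1 c2 : ℝ) (hc : 0 < c) (hc1 : 0 < c1) (hc2 : 0 < c2) (p : ℕ)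
    (hp : 0 < p) (h : c / (p : ℝ) ^ μ ≤ |y| ∨ c1 * p ≤ y ∨ c2 * p ≤ -y) :
    min c (min c1 c2) / (p : ℝ) ^ μ ≤ |y| := by
  have hp' : (1 : ℝ) ≤ p := by exact_mod_cast hp
  have h0 : 0 ≤ min c (min c1 c2) := by positivity
  rcases h with h | h | h
  · exact (div_le_div_of_nonneg_right (min_le_left _ _) (by positivity)).trans h
  · refine (div_le_self h0 (one_le_pow₀ hp')).trans (((min_le_right _ _).trans
      (min_le_left _ _)).trans (le_trans ?_ (h.trans (le_abs_self _))))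
    nlinarith
  · refine (div_le_self h0 (one_le_pow₀ hp')).trans (((min_le_right _ _).trans
      (min_le_right _ _)).trans (le_trans ?_ (h.trans (neg_le_abs _))))
    nlinarith

/-- `|p log 2 - k log 3| ≥ c / p^12`. -/
theorem log_two_three : ∃ c : ℝ, 0 < c ∧ ∀ p k : ℕ, 0 < p →
    c / (p : ℝ) ^ 12 ≤ |p * log 2 - k * log 3| := by
  obtain ⟨c, hc, h⟩ := approx3
  have e1 : 5 * log (3 : ℝ) < 8 * log 2 := by
    have := log_lt_log (show (0 : ℝ) < 3 ^ 5 by norm_num) (show (3 : ℝ) ^ 5 < 2 ^ 8 by norm_num)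
    rw [log_pow, log_pow] at this; exact_mod_cast this
  have e2 : 3 * log (2 : ℝ) < 2 * log 3 := by
    have := log_lt_log (show (0 : ℝ) < 2 ^ 3 by norm_num) (show (2 : ℝ) ^ 3 < 3 ^ 2 by norm_num)
    rw [log_pow, log_pow] at this; exact_mod_cast this
  have l3 : 0 < log (3 : ℝ) := log_pos (by norm_num)
  have l4 : log (4 : ℝ) = 2 * log 2 := by
    rw [show (4 : ℝ) = 2 ^ 2 by norm_num, log_pow]; norm_num
  refine ⟨min c (min ((8 * log 2 - 5 * log 3) / 8) ((2 * log 3 - 3 * log 2) / 3)),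
    lt_min hc (lt_min (by linarith) (by linarith)), fun p k hp => ?_⟩
  refine bound_of_cases _ _ _ _ _ hc (by linarith) (by linarith) p hp ?_
  have hp' : (1 : ℝ) ≤ p := by exact_mod_cast hp
  have hk : (0 : ℝ) ≤ k := by positivity
  rcases le_total (5 * p : ℝ) (8 * k) with h1 | h1
  · rcases le_total (3 * k : ℝ) (2 * p) with h2 | h2
    · left
      have := h ![p - 2 * k, p - k] p hp' (Fin.forall_fin_two.mpr
        ⟨by simp [abs_le]; linarith, by simp [abs_le]; linarith⟩)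
        (by
          have : (k : ℝ) ≤ p := by linarith
          simpa using this) (by simp; linarith)
      rw [l4] at this
      refine this.trans (le_of_eq ?_)
      congr 1
      simp
      ring
    · right; right; nlinarith
  · right; left; nlinarith

/-- `|p log 2 - k log 5| ≥ c / p^24`. -/
theorem log_two_five : ∃ c : ℝ, 0 < c ∧ ∀ p k : ℕ, 0 < p →
    c / (p : ℝ) ^ 24 ≤ |p * log 2 - k * log 5| := by
  obtain ⟨c, hc, h⟩ := approx5
  have e1 : 3 * log (5 : ℝ) < 7 * log 2 := by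
    have := log_lt_log (show (0 : ℝ) < 5 ^ 3 by norm_num) (show (5 : ℝ) ^ 3 < 2 ^ 7 by norm_num)
    rw [log_pow, log_pow] at this; exact_mod_cast this
  have e2 : 23 * log (2 : ℝ) < 10 * log 5 := by
    have := log_lt_log (show (0 : ℝ) < 2 ^ 23 by norm_num) (show (2 : ℝ) ^ 23 < 5 ^ 10 by norm_num)
    rw [log_pow, log_pow] at this; exact_mod_cast this
  have l5 : 0 < log (5 : ℝ) := log_pos (by norm_num)
  have l15 : log (15 : ℝ) = log 3 + log 5 := by
    rw [← log_mul (by norm_num) (by norm_num)]; norm_num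
  have l16 : log (16 : ℝ) = 4 * log 2 := by
    rw [show (16 : ℝ) = 2 ^ 4 by norm_num, log_pow]; norm_num
  have l18 : log (18 : ℝ) = log 2 + 2 * log 3 := by
    rw [show (18 : ℝ) = 2 * 3 ^ 2 by norm_num, log_mul (by norm_num) (by norm_num), log_pow]
    norm_num
  have l20 : log (20 : ℝ) = 2 * log 2 + log 5 := by
    rw [show (20 : ℝ) = 2 ^ 2 * 5 by norm_num, log_mul (by norm_num) (by norm_num), log_pow]
    norm_num
  refine ⟨min c (min ((7 * log 2 - 3 * log 5) / 7) ((10 * log 5 - 23 * log 2) / 23)),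
    lt_min hc (lt_min (by linarith) (by linarith)), fun p k hp => ?_⟩
  refine bound_of_cases _ _ _ _ _ hc (by linarith) (by linarith) p hp ?_
  have hp' : (1 : ℝ) ≤ p := by exact_mod_cast hp
  have hk : (0 : ℝ) ≤ k := by positivity
  rcases le_total (3 * p : ℝ) (7 * k) with h1 | h1
  · rcases le_total (23 * k : ℝ) (10 * p) with h2 | h2
    · left
      have := h ![2 * p - 4 * k, 3 * p - 7 * k, 2 * p - 5 * k] p hp' (fun i => by
          fin_cases i <;> simp [abs_le] <;> constructor <;> linarith)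
        (by
          have : (4 * k : ℝ) ≤ 2 * p := by linarith
          have : 4 * (k : ℤ) ≤ 2 * p := by exact_mod_cast this
          simpa using this)
        (by
          have : 3 * (p : ℤ) ≤ 7 * k := by exact_mod_cast h1
          simpa using this) (by simp; linarith)
      rw [l15, l16, l18, l20] at this
      refine this.trans (le_of_eq ?_)
      congr 1
      simp
      ring
    · right; right; nlinarith
  · right; left; nlinarith

end Pool.Agent.Lib.Common.LogApprox
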